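import Mathlib

namespace Pool.Agent.H.MP_80c6d6_ag

open PowerSeries

section general
variable {A : Type} [CommRing A] (p : ℕ) [Fact p.Prime] [CharP A p]

theorem coeff_pow_q (r : A⟦X⟧) (e n : ℕ) :
    coeff n (r ^ p ^ e) = if p ^ e ∣ n then (coeff (n / p ^ e) r) ^ p ^ e else 0 := by
  have hp : p ≠ 0 := (Fact.out : p.Prime).ne_zero
  have h := MvPowerSeries.map_iterateFrobenius_expand p hp (σ := Unit) r e
  have h2 : r ^ p ^ e = PowerSeries.map (iterateFrobenius A p e)
      (PowerSeries.expand (p ^ e) (pow_ne_zero e hp) r) := h.symm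
  rw [h2, coeff_map, coeff_expand]
  split_ifs
  · rw [iterateFrobenius_def]
  · rw [map_zero]

end general

/-- `q`-th-root-linear additive maps -/
def Lin {A : Type} [CommRing A] (q : ℕ) (φ : A →+ A) : Prop := ∀ r s, φ (r ^ q * s) = r * φ s

/-- extension of an additive map to power series -/
noncomputable def Psi {A : Type} [CommRing A] (q c : ℕ) (ψ : A →+ A) : A⟦X⟧ →+ A⟦X⟧ where
  toFun f := PowerSeries.mk fun j => ψ (coeff (q * j + c) f)
  map_zero' := by ext; simp
  map_add' f g := by ext; simp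

theorem coeff_Psi {A : Type} [CommRing A] (q c : ℕ) (ψ : A →+ A) (f : A⟦X⟧) (j : ℕ) :
    coeff j (Psi q c ψ f) = ψ (coeff (q * j + c) f) := by
  simp [Psi]

theorem Psi_lin {A : Type} [CommRing A] (p : ℕ) [Fact p.Prime] [CharP A p] (e c : ℕ)
    (hc : c < p ^ e) (ψ : A →+ A) (h : Lin (p ^ e) ψ) : Lin (p ^ e) (Psi (p ^ e) c ψ) := by
  intro r s
  ext j
  have hq : 0 < p ^ e := by omega
  rw [coeff_Psi, coeff_mul, coeff_mul, map_sum]
  symm
  refine Finset.sum_of_injOn (fun x : ℕ × ℕ => (p ^ e * x.1, p ^ e * x.2 + c)) ?_ ?_ ?_ ?_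
  · rintro ⟨a, b⟩ _ ⟨a', b'⟩ _ hab
    simp only [Prod.mk.injEq, add_left_inj] at hab
    exact Prod.ext (Nat.eq_of_mul_eq_mul_left hq hab.1) (Nat.eq_of_mul_eq_mul_left hq hab.2)
  · rintro ⟨a, b⟩ hab
    simp only [Finset.mem_coe, Finset.HasAntidiagonal.mem_antidiagonal] at hab ⊢
    rw [← hab]; ring
  · rintro ⟨a, b⟩ hab hn
    rw [coeff_pow_q, if_neg, zero_mul, map_zero]
    rintro ⟨a', rfl⟩
    apply hn
    simp only [Finset.HasAntidiagonal.mem_antidiagonal] at hab
    have h1 : a' ≤ j := by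
      by_contra h2
      have h3 : p ^ e * (j + 1) ≤ p ^ e * a' := Nat.mul_le_mul_left _ (by omega)
      rw [mul_add, mul_one] at h3
      omega
    obtain ⟨b', rfl⟩ := Nat.exists_eq_add_of_le h1
    refine ⟨(a', b'), by simp, ?_⟩
    rw [mul_add] at hab
    simp only [Prod.mk.injEq, true_and]
    omega
  · rintro ⟨a, b⟩ _
    rw [coeff_pow_q, if_pos (dvd_mul_right _ _), Nat.mul_div_cancel_left _ hq, h, coeff_Psi]

/-- concrete form of finiteness of Frobenius -/
def FFin (p : ℕ) (A : Type) [CommRing A] : Prop :=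
  ∃ (ι : Type) (_ : Fintype ι) (g : ι → A), ∀ a, ∃ b : ι → A, a = ∑ i, b i ^ p * g i

theorem FFin_ps {A : Type} [CommRing A] (p : ℕ) [Fact p.Prime] [CharP A p] (h : FFin p A) :
    FFin p A⟦X⟧ := by
  obtain ⟨ι, _, g, hg⟩ := h
  choose b hb using hg
  have hp : 0 < p := (Fact.out : p.Prime).pos
  refine ⟨Fin p × ι, inferInstance, fun x => C (g x.2) * X ^ (x.1 : ℕ), fun f =>
    ⟨fun x => PowerSeries.mk fun j => b (coeff (p * j + x.1) f) x.2, ?_⟩⟩
  ext n
  rw [map_sum, Fintype.sum_prod_type, Finset.sum_eq_single ⟨n % p, Nat.mod_lt _ hp⟩]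
  · rw [hb (coeff n f)]
    refine Finset.sum_congr rfl fun i _ => ?_
    have h1 := coeff_pow_q p (PowerSeries.mk fun j => b (coeff (p * j + n % p) f) i) 1 (n - n % p)
    rw [pow_one] at h1
    have h2 : n - n % p = p * (n / p) := by have := Nat.div_add_mod n p; omega
    rw [← mul_assoc, coeff_mul_X_pow', if_pos (Nat.mod_le _ _), coeff_mul_C, h1, h2,
      if_pos (dvd_mul_right _ _), Nat.mul_div_cancel_left _ hp, coeff_mk, Nat.div_add_mod]
  · intro c _ hc
    refine Finset.sum_eq_zero fun i _ => ?_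
    have h1 := coeff_pow_q p (PowerSeries.mk fun j => b (coeff (p * j + c) f) i) 1 (n - c)
    rw [pow_one] at h1
    rw [← mul_assoc, coeff_mul_X_pow']
    split_ifs with h3
    · rw [coeff_mul_C, h1, if_neg, zero_mul]
      rintro ⟨a, ha⟩
      apply hc
      ext
      have h4 : n = p * a + c := by simp only at h3 ha; omega
      simp only
      rw [h4, Nat.mul_add_mod, Nat.mod_eq_of_lt c.2]
    · rfl
  · simp

theorem FFin_zmod (p : ℕ) [Fact p.Prime] : FFin p (ZMod p) :=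
  ⟨Unit, inferInstance, fun _ => 1, fun a => ⟨fun _ => a, by simp⟩⟩

theorem finite_of_gen {A B : Type} [CommRing A] [CommRing B] (f : A →+* B) {ι : Type} [Fintype ι]
    (g : ι → B) (hg : ∀ b, ∃ a : ι → A, b = ∑ i, f (a i) * g i) : f.Finite := by
  classical
  let := f.toAlgebra
  refine ⟨⟨Finset.univ.image g, ?_⟩⟩
  rw [eq_top_iff]
  intro a _
  obtain ⟨b, rfl⟩ := hg a
  refine Submodule.sum_mem _ fun i _ => ?_
  exact Submodule.smul_mem _ (b i) (Submodule.subset_span (by simp))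

theorem FFin.finite {A : Type} [CommRing A] (p : ℕ) [Fact p.Prime] [CharP A p] (h : FFin p A) :
    (frobenius A p).Finite := by
  obtain ⟨ι, _, g, hg⟩ := h
  exact finite_of_gen _ g hg

/-- two branches glued along the constant terms: `A[[x, y]] / (x y)` -/
noncomputable def Node (A : Type) [CommRing A] : Subring (A⟦X⟧ × A⟦X⟧) :=
  RingHom.eqLocus (constantCoeff.comp (RingHom.fst _ _)) (constantCoeff.comp (RingHom.snd _ _))

section node
variable {A : Type} [CommRing A]

theorem mem_Node (f : A⟦X⟧ × A⟦X⟧) : f ∈ Node A ↔ constantCoeff f.1 = constantCoeff f.2 :=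
  Iff.rfl

/-- diagonal -/
noncomputable def diag : A⟦X⟧ →+* Node A :=
  ((RingHom.id _).prod (RingHom.id _)).codRestrict (Node A) fun _ => rfl

/-- the two branch parameters -/
noncomputable def xx : Node A := ⟨(X, 0), by simp [mem_Node]⟩
noncomputable def yy : Node A := ⟨(0, X), by simp [mem_Node]⟩

theorem decomp (f : Node A) : ∃ g h : A⟦X⟧, f = diag g + diag h * xx := by
  obtain ⟨⟨f1, f2⟩, hf⟩ := f
  have h1 : (X : A⟦X⟧) ∣ f1 - f2 := by
    rw [X_dvd_iff, map_sub, sub_eq_zero]; exact hf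
  obtain ⟨h, hh⟩ := h1
  refine ⟨f2, h, Subtype.ext (Prod.ext ?_ ?_)⟩
  · change f1 = f2 + h * X
    linear_combination hh
  · change f2 = f2 + h * 0
    ring

theorem noeth [IsNoetherianRing A] : IsNoetherianRing (Node A) := by
  have hfin : (diag (A := A)).Finite := by
    refine finite_of_gen _ ![1, xx] fun f => ?_
    obtain ⟨g, h, rfl⟩ := decomp f
    exact ⟨![g, h], by simp⟩
  let := (diag (A := A)).toAlgebra
  have hfin' : Module.Finite A⟦X⟧ (Node A) := hfin
  exact Algebra.FiniteType.isNoetherianRing A⟦X⟧ (Node A)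

theorem FFin_node (p : ℕ) (h : FFin p A⟦X⟧) : FFin p (Node A) := by
  obtain ⟨ι, _, g, hg⟩ := h
  refine ⟨ι ⊕ ι, inferInstance, Sum.elim (fun i => diag (g i)) (fun i => diag (g i) * xx),
    fun f => ?_⟩
  obtain ⟨a, c, rfl⟩ := decomp f
  obtain ⟨b, rfl⟩ := hg a
  obtain ⟨d, rfl⟩ := hg c
  refine ⟨Sum.elim (fun i => diag (b i)) (fun i => diag (d i)), ?_⟩
  simp [Fintype.sum_sum_type, map_sum, Finset.sum_mul, mul_assoc]

/-- common constant term -/
noncomputable def c0 : Node A →+* A :=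
  constantCoeff.comp ((RingHom.fst _ _).comp (Node A).subtype)

theorem isUnit_of (f : Node A) (h : IsUnit (c0 f)) : IsUnit f := by
  obtain ⟨⟨f1, f2⟩, hf⟩ := f
  have h1 : IsUnit (constantCoeff f1) := h
  have h2 : IsUnit (constantCoeff f2) := by rw [← show constantCoeff f1 = constantCoeff f2 from hf]; exact h
  obtain ⟨g1, e1⟩ := (isUnit_iff_constantCoeff.mpr h1).exists_right_inv
  obtain ⟨g2, e2⟩ := (isUnit_iff_constantCoeff.mpr h2).exists_right_inv
  have hg : constantCoeff g1 = constantCoeff g2 := by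
    have a1 := congrArg constantCoeff e1
    have a2 := congrArg constantCoeff e2
    rw [map_mul, map_one] at a1 a2
    rw [← show constantCoeff f1 = constantCoeff f2 from hf, ← a1] at a2
    exact (h1.mul_left_cancel a2).symm
  exact IsUnit.of_mul_eq_one (⟨(g1, g2), hg⟩ : Node A) (Subtype.ext (Prod.ext e1 e2))

theorem loc [IsLocalRing A] : IsLocalRing (Node A) := by
  refine IsLocalRing.of_isUnit_or_isUnit_one_sub_self fun f => ?_
  rcases IsLocalRing.isUnit_or_isUnit_one_sub_self (c0 f) with h | h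
  · exact Or.inl (isUnit_of f h)
  · exact Or.inr (isUnit_of _ (by rwa [map_sub, map_one]))

theorem diag_inj : Function.Injective (diag (A := A)) := fun _ _ h =>
  congrArg (fun f : Node A => f.1.1) h

theorem charP_node (p : ℕ) [CharP A p] : CharP (Node A) p :=
  charP_of_injective_ringHom (f := diag.comp C) (diag_inj.comp C_injective) p

theorem diag_nzd [IsDomain A] (g : A⟦X⟧) (hg : g ≠ 0) : diag g ∈ nonZeroDivisors (Node A) := by
  rw [mem_nonZeroDivisors_iff_right]
  intro f hf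
  have h1 : f.1.1 * g = 0 := congrArg (fun f : Node A => f.1.1) hf
  have h2 : f.1.2 * g = 0 := congrArg (fun f : Node A => f.1.2) hf
  exact Subtype.ext (Prod.ext ((mul_eq_zero.mp h1).resolve_right hg)
    ((mul_eq_zero.mp h2).resolve_right hg))

/-- extension of an additive map to the node -/
noncomputable def Phi (q : ℕ) (ψ : A →+ A) : Node A →+ Node A where
  toFun f := ⟨(Psi q 0 ψ f.1.1, Psi q 0 ψ f.1.2), by
    rw [mem_Node, ← coeff_zero_eq_constantCoeff_apply, ← coeff_zero_eq_constantCoeff_apply,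
      coeff_Psi, coeff_Psi]
    simp only [mul_zero, add_zero, coeff_zero_eq_constantCoeff_apply]
    rw [(mem_Node _).mp f.2]⟩
  map_zero' := Subtype.ext (Prod.ext (map_zero _) (map_zero _))
  map_add' _ _ := Subtype.ext (Prod.ext (map_add _ _ _) (map_add _ _ _))

theorem Phi_lin (p : ℕ) [Fact p.Prime] [CharP A p] (e : ℕ) (ψ : A →+ A) (h : Lin (p ^ e) ψ) :
    Lin (p ^ e) (Phi (p ^ e) ψ) := fun r s =>
  have hq : 0 < p ^ e := pow_pos (Fact.out : p.Prime).pos e
  Subtype.ext (Prod.ext (Psi_lin p e 0 hq ψ h r.1.1 s.1.1) (Psi_lin p e 0 hq ψ h r.1.2 s.1.2))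

theorem Psi_C (q : ℕ) (hq : 0 < q) (ψ : A →+ A) (a : A) : Psi q 0 ψ (C a) = C (ψ a) := by
  ext j
  rw [coeff_Psi, coeff_C, coeff_C]
  by_cases hj : j = 0
  · simp [hj]
  · rw [if_neg (by simp [hj, hq.ne']), if_neg hj, map_zero]

theorem Phi_C (q : ℕ) (hq : 0 < q) (ψ : A →+ A) (a : A) :
    Phi q ψ (diag (C a)) = diag (C (ψ a)) :=
  Subtype.ext (Prod.ext (Psi_C q hq ψ a) (Psi_C q hq ψ a))

theorem compat [IsDomain A] (q : ℕ) (hq : 0 < q) (φ : Node A →+ Node A) (h : Lin q φ)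
    (d : Node A) (hd : c0 d = 0) : c0 (φ d) = 0 := by
  obtain ⟨⟨d1, d2⟩, hd'⟩ := d
  have h1 : constantCoeff d1 = 0 := hd
  have h2 : constantCoeff d2 = 0 := by rw [← show constantCoeff d1 = constantCoeff d2 from hd']; exact h1
  obtain ⟨u, hu⟩ : ∃ u : Node A, u.1 = (d1, 0) := ⟨⟨(d1, 0), by simp [mem_Node, h1]⟩, rfl⟩
  obtain ⟨v, hv⟩ : ∃ v : Node A, v.1 = (0, d2) := ⟨⟨(0, d2), by simp [mem_Node, h2]⟩, rfl⟩
  have e : (⟨(d1, d2), hd'⟩ : Node A) = u + v := Subtype.ext (by simp [hu, hv])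
  have e1 : yy ^ q * u = 0 := Subtype.ext (by simp [hu, yy, hq.ne'])
  have e2 : xx ^ q * v = 0 := Subtype.ext (by simp [hv, xx, hq.ne'])
  have f1 := h yy u
  have f2 := h xx v
  rw [e1, map_zero] at f1
  rw [e2, map_zero] at f2
  have g1 : X * (φ u).1.2 = 0 := (congrArg (fun f : Node A => f.1.2) f1).symm
  have g2 : X * (φ v).1.1 = 0 := (congrArg (fun f : Node A => f.1.1) f2).symm
  have k1 := (mul_eq_zero.mp g1).resolve_left X_ne_zero
  have k2 := (mul_eq_zero.mp g2).resolve_left X_ne_zero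
  have l1 : c0 (φ u) = 0 := by
    change constantCoeff (φ u).1.1 = 0
    rw [(mem_Node _).mp (φ u).2, k1, map_zero]
  have l2 : c0 (φ v) = 0 := by
    change constantCoeff (φ v).1.1 = 0
    rw [k2, map_zero]
  rw [e, map_add, map_add, l1, l2, add_zero]

end node

theorem split_z (p : ℕ) [Fact p.Prime] (e c : ℕ) (hc : c < p ^ e) :
    ∃ φ : Node (ZMod p)⟦X⟧ →+ Node (ZMod p)⟦X⟧, Lin (p ^ e) φ ∧ φ (diag (C X) ^ c) = 1 := by
  have hch : CharP (ZMod p)⟦X⟧ p := charP_of_injective_ringHom (f := C) C_injective p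
  have h0 : Lin (p ^ e) (AddMonoidHom.id (ZMod p)) := fun r s => by simp [ZMod.pow_card_pow]
  refine ⟨Phi (p ^ e) (Psi (p ^ e) c (AddMonoidHom.id _)),
    Phi_lin p e _ (Psi_lin p e c hc _ h0), ?_⟩
  rw [← map_pow, ← map_pow, Phi_C _ (by omega)]
  have h1 : Psi (p ^ e) c (AddMonoidHom.id (ZMod p)) (X ^ c) = 1 := by
    ext j
    rw [coeff_Psi, coeff_X_pow, coeff_one]
    by_cases hj : j = 0
    · simp [hj]
    · have : 0 < p ^ e * j := Nat.mul_pos (by omega) (Nat.pos_of_ne_zero hj)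
      rw [if_neg (by omega), if_neg hj, map_zero]
  rw [h1, map_one, map_one]

end Pool.Agent.H.MP_80c6d6_ag
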